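import Pool.Agent.Helper36.VC.St

set_option autoImplicit false

/-! Project VC, module CNT (written by helper62). -/

open Cardinal Ordinal Set Filter

open Pool.Agent.Helper65.GS Pool.Agent.Helper36.VC

universe u

namespace Pool.Agent.Helper62.VC

theorem pCNT : StCNT.{u} := by
  intro l a b S hS hc
  have h1 : Iio l ⊆ ⋃ p : Iio a × Iio b, S p.1 p.2 := by
    intro c hcl
    obtain ⟨i, hi, j, hj, h⟩ := hc c hcl
    exact mem_iUnion.2 ⟨(⟨i, hi⟩, ⟨j, hj⟩), h⟩
  have h2 : #(Iio l) ≤ #(Iio a × Iio b) * ℵ₀ := by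
    refine (mk_le_mk_of_subset h1).trans ((mk_iUnion_le _).trans ?_)
    gcongr
    apply ciSup_le'
    intro p
    exact le_aleph0_iff_set_countable.2 (hS _ p.1.2 _ p.2.2)
  rw [mk_prod, Cardinal.mk_Iio_ordinal, Cardinal.mk_Iio_ordinal, Cardinal.mk_Iio_ordinal] at h2
  have h3 : Cardinal.lift.{u + 1} l.card ≤ Cardinal.lift.{u + 1} (a.card * b.card * ℵ₀) := by
    simpa using h2
  rw [Cardinal.lift_le] at h3
  refine h3.trans ((mul_le_max _ _).trans ?_)
  refine max_le (max_le ?_ (le_max_right _ _)) (le_max_right _ _)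
  exact mul_le_max _ _

end Pool.Agent.Helper62.VC
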